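import Pool.Agent.helper63.TI.SpecF

set_option autoImplicit false

namespace Pool.Agent.TI

open Polynomial NumberField Pool.Agent.GJ Pool.Agent.TK
open Pool.Agent.FJ (VT Om chiO IsFrobO rf rs)
open scoped NumberField Topology

noncomputable section

/-! ### groups -/

theorem FDN_nrm {G : Type} [Group G] (N : Subgroup G) (c : G) (h1 : ∀ x ∈ N, c * x * c⁻¹ ∈ N)
    (h2 : ∀ x ∈ N, c⁻¹ * x * c ∈ N) (k : ℤ) (x : G) (hx : x ∈ N) : c ^ k * x * (c ^ k)⁻¹ ∈ N := by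
  have h3 : c ∈ Subgroup.normalizer (N : Set G) := by
    rw [Subgroup.mem_normalizer_iff]
    intro y
    refine ⟨h1 y, fun h => ?_⟩
    have h4 := h2 _ h
    have h5 : c⁻¹ * (c * y * c⁻¹) * c = y := by group
    rwa [h5] at h4
  have h4 := zpow_mem h3 k
  rw [Subgroup.mem_normalizer_iff] at h4
  exact (h4 x).1 hx

/-- the subgroup `⋃ c^(d k) N` -/
def FDN_H {G : Type} [Group G] (N : Subgroup G) (c : G) (h1 : ∀ x ∈ N, c * x * c⁻¹ ∈ N)
    (h2 : ∀ x ∈ N, c⁻¹ * x * c ∈ N) (d : ℕ) : Subgroup G where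
  carrier := {h | ∃ k : ℤ, (c ^ (d * k))⁻¹ * h ∈ N}
  mul_mem' := by
    rintro a b ⟨k, hk⟩ ⟨m, hm⟩
    refine ⟨k + m, ?_⟩
    have h3 := FDN_nrm N c h1 h2 (-(d * m)) _ hk
    have h4 := mul_mem h3 hm
    have h5 : (c ^ (d * (k + m)))⁻¹ * (a * b) =
        c ^ (-((d : ℤ) * m)) * ((c ^ (d * k))⁻¹ * a) * (c ^ (-((d : ℤ) * m)))⁻¹ * ((c ^ (d * m))⁻¹ * b) := by
      rw [mul_add, zpow_add]
      group
    rw [h5]
    exact h4
  one_mem' := ⟨0, by rw [mul_zero, zpow_zero, inv_one, one_mul]; exact one_mem _⟩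
  inv_mem' := by
    rintro a ⟨k, hk⟩
    refine ⟨-k, ?_⟩
    have h3 := FDN_nrm N c h1 h2 (d * k) _ (inv_mem hk)
    have h5 : (c ^ (d * -k))⁻¹ * a⁻¹ = c ^ ((d : ℤ) * k) * ((c ^ (d * k))⁻¹ * a)⁻¹ * (c ^ ((d : ℤ) * k))⁻¹ := by
      group
    rw [h5]
    exact h3

theorem FDN_mem {G : Type} [Group G] (N : Subgroup G) (c : G) (h1 : ∀ x ∈ N, c * x * c⁻¹ ∈ N)
    (h2 : ∀ x ∈ N, c⁻¹ * x * c ∈ N) (d : ℕ) (h : G) :
    h ∈ FDN_H N c h1 h2 d ↔ ∃ k : ℤ, (c ^ (d * k))⁻¹ * h ∈ N := Iff.rfl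

theorem FDN_card {G : Type} [Group G] [Finite G] (N : Subgroup G) (c : G) (h1 : ∀ x ∈ N, c * x * c⁻¹ ∈ N)
    (h2 : ∀ x ∈ N, c⁻¹ * x * c ∈ N) (n : ℕ) (hn : 0 < n) (hc : ∀ k : ℤ, c ^ k ∈ N ↔ (n : ℤ) ∣ k)
    (d : ℕ) (hd : d ∣ n) : Nat.card (FDN_H N c h1 h2 d) * d = n * Nat.card N := by
  obtain ⟨m, hm⟩ := hd
  have hd0 : 0 < d := Nat.pos_of_ne_zero fun h => by
    rw [h, zero_mul] at hm
    omega
  have hm0 : 0 < m := Nat.pos_of_ne_zero fun h => by
    rw [h, mul_zero] at hm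
    omega
  have h3 : Nat.card (FDN_H N c h1 h2 d) = Nat.card (Fin m × N) := by
    refine (Nat.card_congr (Equiv.ofBijective
      (fun z : Fin m × N => (⟨c ^ ((d : ℤ) * ((z.1 : ℕ) : ℤ)) * (z.2 : G), ((z.1 : ℕ) : ℤ), by
        rw [inv_mul_cancel_left]
        exact z.2.2⟩ : FDN_H N c h1 h2 d)) ⟨?_, ?_⟩)).symm
    · rintro ⟨i, x⟩ ⟨j, y⟩ h
      have h4 : c ^ ((d : ℤ) * ((i : ℕ) : ℤ)) * (x : G) = c ^ ((d : ℤ) * ((j : ℕ) : ℤ)) * (y : G) :=
        congrArg Subtype.val h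
      have h5 : c ^ ((d : ℤ) * ((i : ℕ) : ℤ) - (d : ℤ) * ((j : ℕ) : ℤ)) ∈ N := by
        have h6 : c ^ ((d : ℤ) * ((i : ℕ) : ℤ) - (d : ℤ) * ((j : ℕ) : ℤ)) =
            c ^ ((d : ℤ) * ((j : ℕ) : ℤ)) * ((y : G) * (x : G)⁻¹) * (c ^ ((d : ℤ) * ((j : ℕ) : ℤ)))⁻¹ := by
          rw [zpow_sub, eq_mul_inv_of_mul_eq h4]
          group
        rw [h6]
        exact FDN_nrm N c h1 h2 _ _ (mul_mem y.2 (inv_mem x.2))
      rw [hc, ← mul_sub, hm, Nat.cast_mul] at h5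
      have h6 : (m : ℤ) ∣ ((i : ℕ) : ℤ) - ((j : ℕ) : ℤ) :=
        Int.dvd_of_mul_dvd_mul_left (by exact_mod_cast hd0.ne') h5
      have h7 : (i : ℕ) = (j : ℕ) := by
        have hi := i.2
        have hj := j.2
        obtain ⟨t, ht⟩ := h6
        have h8 : t = 0 := by
          rcases lt_trichotomy t 0 with h9 | h9 | h9
          · have : (m : ℤ) * t ≤ (m : ℤ) * (-1) := mul_le_mul_of_nonneg_left (by omega) (by omega)
            omega
          · exact h9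
          · have : (m : ℤ) * 1 ≤ (m : ℤ) * t := mul_le_mul_of_nonneg_left (by omega) (by omega)
            omega
        rw [h8, mul_zero] at ht
        omega
      have h8 : i = j := Fin.ext h7
      subst h8
      have h9 := mul_left_cancel h4
      exact Prod.ext rfl (Subtype.ext h9)
    · rintro ⟨h, k, hk⟩
      have hm' : (0 : ℤ) < m := by exact_mod_cast hm0
      have h4 : 0 ≤ k % m := Int.emod_nonneg k hm'.ne'
      have h5 : k % m < m := Int.emod_lt_of_pos k hm'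
      have h6 : ((k % m).toNat : ℤ) = k % m := Int.toNat_of_nonneg h4
      have h7 : (c ^ ((d : ℤ) * (k % m)))⁻¹ * h ∈ N := by
        have h8 : (d : ℤ) * k = (d : ℤ) * (k % m) + (n : ℤ) * (k / m) := by
          rw [hm, Nat.cast_mul]
          have := Int.emod_add_mul_ediv k m
          calc (d : ℤ) * k = d * (k % m + m * (k / m)) := by rw [this]
            _ = _ := by ring
        have h9 : c ^ ((n : ℤ) * (k / m)) ∈ N := (hc _).2 (Dvd.intro _ rfl)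
        have h10 : (c ^ ((d : ℤ) * (k % m)))⁻¹ * h = c ^ ((n : ℤ) * (k / m)) * ((c ^ ((d : ℤ) * k))⁻¹ * h) := by
          rw [h8, zpow_add]
          group
        rw [h10]
        exact mul_mem h9 hk
      refine ⟨(⟨(k % m).toNat, by omega⟩, ⟨_, h7⟩), ?_⟩
      apply Subtype.ext
      show c ^ ((d : ℤ) * (((k % m).toNat : ℕ) : ℤ)) * ((c ^ ((d : ℤ) * (k % m)))⁻¹ * h) = h
      rw [h6, mul_inv_cancel_left]
  rw [h3, Nat.card_prod, Nat.card_eq_fintype_card, Fintype.card_fin, hm]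
  ring

theorem FDN_ord {G : Type} [Group G] [Finite G] (N : Subgroup G) (c : G) :
    ∃ n : ℕ, 0 < n ∧ ∀ k : ℤ, c ^ k ∈ N ↔ (n : ℤ) ∣ k := by
  classical
  have hex : ∃ n : ℕ, 0 < n ∧ c ^ n ∈ N := ⟨orderOf c, orderOf_pos c, by
    rw [pow_orderOf_eq_one]
    exact one_mem _⟩
  obtain ⟨hn0, hnN⟩ := Nat.find_spec hex
  refine ⟨Nat.find hex, hn0, fun k => ⟨fun h => ?_, ?_⟩⟩
  · have hz : (0 : ℤ) < (Nat.find hex : ℕ) := by exact_mod_cast hn0
    have h4 : 0 ≤ k % (Nat.find hex : ℕ) := Int.emod_nonneg k hz.ne'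
    have h5 : k % (Nat.find hex : ℕ) < (Nat.find hex : ℕ) := Int.emod_lt_of_pos k hz
    have h6 : ((k % (Nat.find hex : ℕ)).toNat : ℤ) = k % (Nat.find hex : ℕ) := Int.toNat_of_nonneg h4
    have h7 : c ^ (k % (Nat.find hex : ℕ)).toNat ∈ N := by
      have h8 : c ^ (k % (Nat.find hex : ℕ)).toNat =
          (c ^ (Nat.find hex)) ^ (-(k / (Nat.find hex : ℕ))) * c ^ k := by
        rw [← zpow_natCast, h6, ← zpow_natCast c (Nat.find hex), ← zpow_mul, ← zpow_add]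
        have h9 := Int.emod_add_mul_ediv k (Nat.find hex : ℕ)
        refine congrArg (fun t => c ^ t) ?_
        linarith
      rw [h8]
      exact mul_mem (zpow_mem hnN _) h
    by_contra hnd
    have h8 : 0 < (k % (Nat.find hex : ℕ)).toNat := by
      by_contra h9
      apply hnd
      apply Int.dvd_of_emod_eq_zero
      omega
    exact Nat.find_min hex (by omega) ⟨h8, h7⟩
  · rintro ⟨t, rfl⟩
    rw [zpow_mul, zpow_natCast]
    exact zpow_mem hnN t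

/-! ### fields -/

theorem FDN_alg : Algebra.IsAlgebraic ℚ Om := AlgebraicClosure.isAlgebraic ℚ

theorem FDN_isg : IsGalois ℚ Om := by
  have h1 := FDN_alg
  have h2 : IsAlgClosure ℚ Om := ⟨inferInstance, FDN_alg⟩
  exact IsAlgClosure.isGalois ℚ Om

theorem FDN_res (E : IntermediateField ℚ Om) [Normal ℚ E] (σ : Om ≃ₐ[ℚ] Om) (x : E) :
    ((AlgEquiv.restrictNormalHom E σ x : E) : Om) = σ (x : Om) :=
  AlgEquiv.restrictNormal_commutes σ E x

theorem FDN_prim (M : Type) [Field M] [NumberField M] :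
    ∃ β : 𝓞 M, Algebra.adjoin ℚ {(β : M)} = ⊤ := by
  obtain ⟨α, hα⟩ := Field.exists_primitive_element ℚ M
  have hα2 : Algebra.adjoin ℚ {α} = ⊤ := by
    rw [← IntermediateField.adjoin_simple_toSubalgebra_of_isAlgebraic (Algebra.IsAlgebraic.isAlgebraic α), hα]
    exact IntermediateField.top_toSubalgebra
  have hi : IsAlgebraic ℤ α :=
    (IsFractionRing.isAlgebraic_iff ℤ ℚ M).mpr (Algebra.IsAlgebraic.isAlgebraic α)
  obtain ⟨y, hy, hyi⟩ := hi.exists_integral_multiple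
  refine ⟨⟨y • α, hyi⟩, ?_⟩
  rw [eq_top_iff, ← hα2, Algebra.adjoin_le_iff, Set.singleton_subset_iff]
  have hy' : (y : ℚ) ≠ 0 := by exact_mod_cast hy
  have h1 : α = (y : ℚ)⁻¹ • (y • α) := by
    rw [← Int.cast_smul_eq_zsmul ℚ y α, smul_smul, inv_mul_cancel₀ hy', one_smul]
  have h2 : (y • α) ∈ Algebra.adjoin ℚ {y • α} := Algebra.subset_adjoin rfl
  have h3 := Subalgebra.smul_mem _ h2 (y : ℚ)⁻¹
  rw [← h1] at h3
  exact h3

theorem FDN_field (hFD1 : FD1_stmt) (hFD2 : FD2_stmt) (hFD4 : FD4_stmt) (E : IntermediateField ℚ Om)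
    [FiniteDimensional ℚ E] [Normal ℚ E] (H : Subgroup (E ≃ₐ[ℚ] E))
    [NumberField (IntermediateField.fixedField H)] :
    ∃ D : ℕ, 0 < D ∧ ∀ (p : ℕ) [Fact p.Prime] (O : ValuationSubring Om) [CharP (rf O) p]
      (φ : Om ≃ₐ[ℚ] Om), IsFrobO O φ.toRingEquiv p → ¬ p ∣ D →
      Nat.card {g : E ≃ₐ[ℚ] E // g⁻¹ * (AlgEquiv.restrictNormalHom E φ) * g ∈ H} =
        Nat.card H * nid (IntermediateField.fixedField H) p := by
  classical
  obtain ⟨β, hβ⟩ := FDN_prim (IntermediateField.fixedField H)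
  obtain ⟨D1, hD1, h1⟩ := hFD1 (IntermediateField.fixedField H) β hβ
  have hint : IsIntegral ℤ β := RingOfIntegers.isIntegral β
  have hmp : minpoly ℚ (β : IntermediateField.fixedField H) =
      (minpoly ℤ β).map (Int.castRingHom ℚ) :=
    minpoly.isIntegrallyClosed_eq_field_fractions ℚ (IntermediateField.fixedField H) hint
  have hsep : ((minpoly ℤ β).map (Int.castRingHom ℚ)).Separable := by
    rw [← hmp]
    exact (minpoly.irreducible (Algebra.IsIntegral.isIntegral _)).separable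
  obtain ⟨D2, hD2, h2⟩ := hFD2 (minpoly ℤ β) (minpoly.monic hint) hsep
  obtain ⟨b, hb⟩ : ∃ b : E, b = ((β : IntermediateField.fixedField H) : E) := ⟨_, rfl⟩
  have hgal : IsGalois ℚ E := ⟨⟩
  -- the stabiliser
  have hst : MulAction.stabilizer (E ≃ₐ[ℚ] E) b = H := by
    ext g
    rw [MulAction.mem_stabilizer_iff]
    constructor
    · intro h
      have h3 : g ∈ IntermediateField.fixingSubgroup (IntermediateField.fixedField H) := by
        rw [IntermediateField.mem_fixingSubgroup_iff]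
        intro x hx
        have h4 : (⟨x, hx⟩ : IntermediateField.fixedField H) ∈ Algebra.adjoin ℚ
            {(β : IntermediateField.fixedField H)} := by
          rw [hβ]
          exact Algebra.mem_top
        have h5 : Algebra.adjoin ℚ {(β : IntermediateField.fixedField H)} ≤
            AlgHom.equalizer (g.toAlgHom.comp (IntermediateField.fixedField H).val)
              (IntermediateField.fixedField H).val := by
          rw [Algebra.adjoin_le_iff, Set.singleton_subset_iff]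
          rw [hb] at h
          exact h
        exact h5 h4
      rwa [IntermediateField.fixingSubgroup_fixedField] at h3
    · intro h
      rw [hb]
      exact (β : IntermediateField.fixedField H).2 ⟨g, h⟩
  -- the roots
  have hmpb : minpoly ℚ (b : Om) = (minpoly ℤ β).map (Int.castRingHom ℚ) := by
    rw [← hmp, hb]
    exact (minpoly.algebraMap_eq (algebraMap E Om).injective _).trans
      (minpoly.algebraMap_eq (algebraMap (IntermediateField.fixedField H) E).injective _)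
  have hae : ∀ x : Om, aeval x (minpoly ℤ β) = 0 ↔ aeval x (minpoly ℚ (b : Om)) = 0 := by
    intro x
    rw [hmpb]
    have := Polynomial.aeval_map_algebraMap ℚ x (minpoly ℤ β)
    rw [← this]
    rfl
  have hroot : ∀ x : Om, aeval x (minpoly ℤ β) = 0 ↔ ∃ g : E ≃ₐ[ℚ] E, ((g b : E) : Om) = x := by
    intro x
    rw [hae]
    constructor
    · intro h
      have hnO : Normal ℚ Om := FDN_isg.to_normal
      obtain ⟨σ, hσ⟩ := minpoly.exists_algEquiv_of_root' (L := Om)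
        (Algebra.IsAlgebraic.isAlgebraic (b : Om)) h
      exact ⟨AlgEquiv.restrictNormalHom E σ, by
        rw [FDN_res, hσ]⟩
    · rintro ⟨g, rfl⟩
      have hnO : Normal ℚ Om := FDN_isg.to_normal
      obtain ⟨σ, rfl⟩ := AlgEquiv.restrictNormalHom_surjective (F := ℚ) (K₁ := E) Om g
      rw [FDN_res]
      have h3 : aeval (σ (b : Om)) (minpoly ℚ (b : Om)) = σ (aeval (b : Om) (minpoly ℚ (b : Om))) :=
        Polynomial.aeval_algHom_apply σ.toAlgHom (b : Om) _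
      rw [h3, minpoly.aeval, map_zero]
  refine ⟨D1 * D2, Nat.mul_pos hD1 hD2, ?_⟩
  intro p hp O _ φ hφ hpD
  rw [h1 p hp.out (fun h => hpD (h.mul_right D2)), h2 p O φ.toRingEquiv hφ (fun h => hpD (h.mul_left D1))]
  have h4 := hFD4 (E ≃ₐ[ℚ] E) E b (AlgEquiv.restrictNormalHom E φ)
  rw [hst] at h4
  rw [h4]
  refine congrArg (fun t => Nat.card H * t) (Nat.card_congr (Equiv.ofBijective
    (fun z : {x : E // x ∈ MulAction.orbit (E ≃ₐ[ℚ] E) b ∧ AlgEquiv.restrictNormalHom E φ • x = x} =>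
      (⟨(z.1 : Om), ?_, ?_⟩ : {x : Om // aeval x (minpoly ℤ β) = 0 ∧ φ.toRingEquiv x = x})) ⟨?_, ?_⟩))
  · obtain ⟨g, hg⟩ := z.2.1
    exact (hroot _).2 ⟨g, congrArg Subtype.val hg⟩
  · have h5 := congrArg Subtype.val z.2.2
    have h6 : ((AlgEquiv.restrictNormalHom E φ • z.1 : E) : Om) = φ (z.1 : Om) :=
      FDN_res E φ z.1
    rw [h6] at h5
    exact h5
  · intro z z' h
    apply Subtype.ext
    apply Subtype.ext
    exact congrArg (fun w : {x : Om // aeval x (minpoly ℤ β) = 0 ∧ φ.toRingEquiv x = x} => (w : Om)) h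
  · rintro ⟨x, hx1, hx2⟩
    obtain ⟨g, hg⟩ := (hroot x).1 hx1
    refine ⟨⟨g b, ⟨g, rfl⟩, ?_⟩, ?_⟩
    · apply Subtype.ext
      have h6 : ((AlgEquiv.restrictNormalHom E φ • (g b) : E) : Om) = φ ((g b : E) : Om) :=
        FDN_res E φ (g b)
      rw [h6, hg]
      exact hx2
    · apply Subtype.ext
      exact hg

/-! ### Frobenius elements over `ℚ` -/

theorem FDN_frob (hE2 : FJ.E2_stmt) (p : ℕ) [hp : Fact p.Prime] :
    ∃ (O : ValuationSubring Om) (_ : CharP (rf O) p) (φ : Om ≃ₐ[ℚ] Om), IsFrobO O φ.toRingEquiv p := by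
  have hnf : NumberField (⊥ : IntermediateField ℚ Om) := ⟨⟩
  obtain ⟨P, hP⟩ : ∃ P : Ideal (𝓞 (⊥ : IntermediateField ℚ Om)), Ideal.absNorm P = p := by
    refine ⟨Ideal.span {((p : ℕ) : 𝓞 (⊥ : IntermediateField ℚ Om))}, ?_⟩
    rw [Ideal.absNorm_span_natCast, RingOfIntegers.rank]
    have h1 : Module.finrank ℚ (⊥ : IntermediateField ℚ Om) = 1 := IntermediateField.finrank_bot
    rw [h1, pow_one]
  have hPp : P.IsPrime := Ideal.isPrime_of_irreducible_absNorm (by rw [hP]; exact hp.out)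
  have hP0 : P ≠ ⊥ := by
    intro h0
    rw [h0, Ideal.absNorm_bot] at hP
    exact hp.out.ne_zero hP.symm
  obtain ⟨O, σ, hσ, hO⟩ := hE2 _ P hPp hP0
  rw [hP] at hσ
  have hp0 : (p : rf O) = 0 := by
    have hmem : ((p : ℕ) : 𝓞 (⊥ : IntermediateField ℚ Om)) ∈ P := by
      rw [← hP]
      exact Ideal.absNorm_mem P
    obtain ⟨y, hy, hy'⟩ := hO (p : 𝓞 (⊥ : IntermediateField ℚ Om))
    have hyp : y = (p : O) := by
      apply Subtype.ext
      rw [hy]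
      push_cast
      rfl
    have := hy'.mpr hmem
    rw [hyp, map_natCast] at this
    exact this
  exact ⟨O, (CharP.charP_iff_prime_eq_zero hp.out).mpr hp0,
    AlgEquiv.ofRingEquiv (f := σ.toRingEquiv) (fun r => by rw [eq_ratCast, map_ratCast]), hσ⟩

/-- automorphisms of `ℚbar` are `ℚ`-linear -/
def FDN_A : (Om ≃+* Om) →* (Om ≃ₐ[ℚ] Om) where
  toFun f := AlgEquiv.ofRingEquiv (f := f) (fun r => by rw [eq_ratCast, map_ratCast])
  map_one' := AlgEquiv.ext fun _ => rfl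
  map_mul' _ _ := AlgEquiv.ext fun _ => rfl

theorem FDN_A_apply (f : Om ≃+* Om) (x : Om) : FDN_A f x = f x := rfl

theorem FDN_A_ring (φ : Om ≃ₐ[ℚ] Om) : FDN_A φ.toRingEquiv = φ := AlgEquiv.ext fun _ => rfl

/-! ### the end of the proof -/

theorem FDN_end {G : Type} [Group G] (K N : Subgroup G) (hNK : N ≤ K)
    (hN : ∀ g ∈ K, ∀ x ∈ N, g * x * g⁻¹ ∈ N) (s F : G) (hs : s ∈ K) (k : ℤ) (n : ℕ) (hn : 0 < n)
    (hk : IsCoprime k (n : ℤ)) (hsn : s ^ (n : ℤ) ∈ N) (hF : (s ^ k)⁻¹ * F ∈ N) :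
    F ∈ K ∧ ∃ v : ℕ, 0 < v ∧ F ^ v * s⁻¹ ∈ N := by
  have hFK : F ∈ K := by
    have h1 := mul_mem (zpow_mem hs k) (hNK hF)
    rwa [mul_inv_cancel_left] at h1
  refine ⟨hFK, ?_⟩
  have hnor : (N.subgroupOf K).Normal := ⟨fun x hx g => by
    rw [Subgroup.mem_subgroupOf] at hx ⊢
    exact hN g g.2 x hx⟩
  have hq : ∀ x : K, (QuotientGroup.mk' (N.subgroupOf K)) x = 1 ↔ (x : G) ∈ N := by
    intro x
    rw [QuotientGroup.mk'_apply, QuotientGroup.eq_one_iff, Subgroup.mem_subgroupOf]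
  have h1 : (QuotientGroup.mk' (N.subgroupOf K)) ⟨F, hFK⟩ =
      (QuotientGroup.mk' (N.subgroupOf K)) ⟨s, hs⟩ ^ k := by
    have h2 : (QuotientGroup.mk' (N.subgroupOf K)) ((⟨s, hs⟩ : K) ^ k)⁻¹ *
        (QuotientGroup.mk' (N.subgroupOf K)) ⟨F, hFK⟩ = 1 := by
      rw [← map_mul, hq]
      exact hF
    rw [map_inv, map_zpow] at h2
    rw [← mul_one ((QuotientGroup.mk' (N.subgroupOf K)) ⟨s, hs⟩ ^ k), ← h2, mul_inv_cancel_left]
  have h3 : (QuotientGroup.mk' (N.subgroupOf K)) ⟨s, hs⟩ ^ (n : ℤ) = 1 := by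
    rw [← map_zpow, hq]
    exact hsn
  obtain ⟨a, b, hab⟩ := hk
  have hn' : (0 : ℤ) < n := by exact_mod_cast hn
  have h4 : 0 ≤ a % n := Int.emod_nonneg a hn'.ne'
  have h6 : ((a % n).toNat : ℤ) = a % n := Int.toNat_of_nonneg h4
  refine ⟨(a % n).toNat + n, by omega, ?_⟩
  have h7 : (QuotientGroup.mk' (N.subgroupOf K)) ((⟨F, hFK⟩ : K) ^ ((a % n).toNat + n) * (⟨s, hs⟩ : K)⁻¹) = 1 := by
    rw [map_mul, map_pow, map_inv, h1, ← zpow_natCast, ← zpow_mul, ← zpow_neg_one, ← zpow_add]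
    have h8 : k * (((a % n).toNat + n : ℕ) : ℤ) + -1 = (n : ℤ) * (k - b - k * (a / n)) := by
      push_cast
      rw [h6]
      have h9 := Int.emod_add_mul_ediv a n
      have h10 : a % n = a - n * (a / n) := by linarith
      rw [h10]
      linear_combination hab
    rw [h8, zpow_mul, h3, one_zpow]
  rw [hq] at h7
  exact h7

theorem FDN (hFD1 : FD1_stmt) (hFD2 : FD2_stmt) (hFD3 : FD3_stmt) (hFD4 : FD4_stmt) (hFD5 : FD5_stmt)
    (hFDT : FDT_stmt) (hE2 : FJ.E2_stmt) : FDN_stmt := by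
  classical
  intro S0 S1 N hN0 hNn hS1 σ0 hσ0 D0 hD0
  have halg := FDN_alg
  have hnO : Normal ℚ Om := FDN_isg.to_normal
  have hfin1 : FiniteDimensional ℚ (IntermediateField.adjoin ℚ (S1 : Set Om)) :=
    IntermediateField.finiteDimensional_adjoin fun x _ => Algebra.IsIntegral.isIntegral x
  obtain ⟨E, hE⟩ : ∃ E : IntermediateField ℚ Om,
    E = IntermediateField.normalClosure ℚ (IntermediateField.adjoin ℚ (S1 : Set Om)) Om := ⟨_, rfl⟩
  have hEf : FiniteDimensional ℚ E := by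
    rw [hE]
    infer_instance
  have hEn : Normal ℚ E := by
    rw [hE]
    exact normalClosure.normal ℚ _ Om
  have hES : ∀ x ∈ S1, x ∈ E := by
    intro x hx
    rw [hE]
    exact IntermediateField.le_normalClosure _ (IntermediateField.subset_adjoin ℚ _ hx)
  obtain ⟨r, hr⟩ : ∃ r : (Om ≃+* Om) →* (E ≃ₐ[ℚ] E), r = (AlgEquiv.restrictNormalHom E).comp FDN_A := ⟨_, rfl⟩
  have hrs : Function.Surjective r := by
    intro g
    obtain ⟨σ, hσ⟩ := AlgEquiv.restrictNormalHom_surjective (F := ℚ) (K₁ := E) Om g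
    refine ⟨σ.toRingEquiv, ?_⟩
    rw [hr, MonoidHom.comp_apply, FDN_A_ring]
    exact hσ
  have hker : ∀ f : Om ≃+* Om, r f = 1 → f ∈ N := by
    intro f hf
    apply hS1
    intro x hx
    have h1 := FDN_res E (FDN_A f) ⟨x, hES x hx⟩
    have h2 : AlgEquiv.restrictNormalHom E (FDN_A f) = 1 := by
      rw [hr] at hf
      exact hf
    rw [h2] at h1
    exact h1.symm
  have hmem : ∀ f : Om ≃+* Om, r f ∈ N.map r ↔ f ∈ N := by
    intro f
    refine ⟨?_, fun h => Subgroup.mem_map_of_mem r h⟩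
    rintro ⟨g, hg, hgf⟩
    have h1 : g⁻¹ * f ∈ N := hker _ (by rw [map_mul, map_inv, hgf, inv_mul_cancel])
    have h2 := mul_mem (show g ∈ N from hg) h1
    rwa [mul_inv_cancel_left] at h2
  have hGf : Finite (E ≃ₐ[ℚ] E) := inferInstance
  have h1 : ∀ x ∈ N.map r, r σ0 * x * (r σ0)⁻¹ ∈ N.map r := by
    rintro x ⟨y, hy, rfl⟩
    rw [← map_inv, ← map_mul, ← map_mul, hmem]
    exact hNn σ0 hσ0 y hy
  have h2 : ∀ x ∈ N.map r, (r σ0)⁻¹ * x * r σ0 ∈ N.map r := by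
    rintro x ⟨y, hy, rfl⟩
    rw [← map_inv, ← map_mul, ← map_mul, hmem]
    have := hNn σ0⁻¹ (inv_mem hσ0) y hy
    rwa [inv_inv] at this
  obtain ⟨n, hn0, hn⟩ := FDN_ord (N.map r) (r σ0)
  have hnf : ∀ d, NumberField (IntermediateField.fixedField (FDN_H (N.map r) (r σ0) h1 h2 d)) := fun d => ⟨⟩
  choose Dd hDd0 hDd using fun d => FDN_field hFD1 hFD2 hFD4 E (FDN_H (N.map r) (r σ0) h1 h2 d)
  obtain ⟨p, hp, hpD, hpos⟩ := hFD5 n (D0 * ∏ d ∈ n.divisors, Dd d)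
    (fun d => IntermediateField.fixedField (FDN_H (N.map r) (r σ0) h1 h2 d)) hn0
    (Nat.mul_pos hD0 (Finset.prod_pos fun d _ => hDd0 d))
  have hpF : Fact p.Prime := ⟨hp⟩
  obtain ⟨O, hch, φ, hφ⟩ := FDN_frob hE2 p
  have hcnt : ∀ d ∈ n.divisors, ((ArithmeticFunction.moebius d : ℤ) : ℝ) / d *
      (nid (IntermediateField.fixedField (FDN_H (N.map r) (r σ0) h1 h2 d)) p : ℝ) =
      (((ArithmeticFunction.moebius d * (Nat.card {g : E ≃ₐ[ℚ] E // ∃ k : ℤ, ((r σ0) ^ (d * k))⁻¹ *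
        (g⁻¹ * AlgEquiv.restrictNormalHom E φ * g) ∈ N.map r} : ℤ) : ℤ)) : ℝ) / ((n * Nat.card (N.map r) : ℕ) : ℝ) := by
    intro d hd
    have hdn : d ∣ n := Nat.dvd_of_mem_divisors hd
    have hd0 : 0 < d := Nat.pos_of_mem_divisors hd
    have h3 := hDd d p O φ hφ (fun h => hpD ((h.trans (Finset.dvd_prod_of_mem Dd hd)).mul_left D0))
    have h4 := FDN_card (N.map r) (r σ0) h1 h2 n hn0 hn d hdn
    have h5 : Nat.card {g : E ≃ₐ[ℚ] E // ∃ k : ℤ, ((r σ0) ^ (d * k))⁻¹ *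
        (g⁻¹ * AlgEquiv.restrictNormalHom E φ * g) ∈ N.map r} =
        Nat.card (FDN_H (N.map r) (r σ0) h1 h2 d) *
          nid (IntermediateField.fixedField (FDN_H (N.map r) (r σ0) h1 h2 d)) p := h3
    have h6 : 0 < Nat.card (FDN_H (N.map r) (r σ0) h1 h2 d) := Nat.card_pos
    rw [h5, ← h4]
    push_cast
    have h7 : (d : ℝ) ≠ 0 := by positivity
    have h8 : (Nat.card (FDN_H (N.map r) (r σ0) h1 h2 d) : ℝ) ≠ 0 := by positivity
    field_simp
  rw [Finset.sum_congr rfl hcnt, ← Finset.sum_div] at hpos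
  have hC : (0 : ℝ) < ((n * Nat.card (N.map r) : ℕ) : ℝ) := by
    have h3 : 0 < Nat.card (N.map r) := Nat.card_pos
    exact_mod_cast Nat.mul_pos hn0 h3
  have hpos2 := (div_pos_iff_of_pos_right hC).1 hpos
  rw [← Int.cast_sum] at hpos2
  have hpos3 : (0 : ℤ) < ∑ d ∈ n.divisors, ArithmeticFunction.moebius d *
      (Nat.card {g : E ≃ₐ[ℚ] E // ∃ k : ℤ, ((r σ0) ^ (d * k))⁻¹ *
        (g⁻¹ * AlgEquiv.restrictNormalHom E φ * g) ∈ N.map r} : ℤ) := by exact_mod_cast hpos2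
  rw [hFD3 (E ≃ₐ[ℚ] E) (N.map r) (r σ0) (AlgEquiv.restrictNormalHom E φ) n hn0 h1 h2 hn] at hpos3
  have hpos4 : 0 < Nat.card {g : E ≃ₐ[ℚ] E // ∃ k : ℤ, IsCoprime k (n : ℤ) ∧ ((r σ0) ^ k)⁻¹ *
      (g⁻¹ * AlgEquiv.restrictNormalHom E φ * g) ∈ N.map r} := by exact_mod_cast hpos3
  obtain ⟨⟨⟨g, k, hk, hg⟩⟩, -⟩ := Nat.card_pos_iff.1 hpos4
  obtain ⟨g', rfl⟩ := hrs g
  have hrφ : r φ.toRingEquiv = AlgEquiv.restrictNormalHom E φ := by
    rw [hr, MonoidHom.comp_apply, FDN_A_ring]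
  rw [← hrφ, ← map_inv, ← map_mul, ← map_mul, ← map_zpow, ← map_inv, ← map_mul, hmem] at hg
  have hσn : σ0 ^ (n : ℤ) ∈ N := by
    rw [← hmem, map_zpow]
    exact (hn n).2 (dvd_refl _)
  obtain ⟨hFK, v, hv0, hv⟩ := FDN_end (Fx S0) N hN0 hNn σ0 (g'⁻¹ * φ.toRingEquiv * g') hσ0 k n hn0 hk hσn hg
  obtain ⟨O', hch', hF'⟩ := hFDT O p φ.toRingEquiv g' hφ
  refine ⟨p, hpF, O', hch', g'⁻¹ * φ.toRingEquiv * g', v, hFK, hF', ?_, hv0, hv⟩
  intro h0
  rw [CharP.cast_eq_zero_iff (rf O') p] at h0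
  exact hpD (h0.mul_right _)

end

end Pool.Agent.TI
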