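import Pool.Agent.helper63.TI.SpecG

set_option autoImplicit false

namespace Pool.Agent.TI

open Polynomial NumberField Pool.Agent.GJ Pool.Agent.TK Pool.Agent.TQ Pool.Agent.TFQ Pool.Agent.TD
open Pool.Agent.FJ (VT Om chiO IsFrobO rf rs)

noncomputable section

theorem GFR_iota : Nonempty (Om →+* ℂ) := by
  have : Algebra.IsAlgebraic ℚ Om := AlgebraicClosure.isAlgebraic ℚ
  exact ⟨(IsAlgClosed.lift : Om →ₐ[ℚ] ℂ).toRingHom⟩

theorem GFR_count : Countable Om := by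
  rw [← Cardinal.mk_le_aleph0_iff]
  have h : Algebra.IsAlgebraic ℚ (AlgebraicClosure ℚ) := AlgebraicClosure.isAlgebraic ℚ
  refine (Algebra.IsAlgebraic.cardinalMk_le_max ℚ (AlgebraicClosure ℚ)).trans ?_
  simp

theorem GFR_prim (l : ℕ) [Fact l.Prime] : ∃ s : rootsOfUnity l Om, Prim s := by
  have hl : l.Prime := Fact.out
  have hl0 : NeZero (l : Om) := ⟨by exact_mod_cast hl.ne_zero⟩
  obtain ⟨ζ, hζ⟩ := HasEnoughRootsOfUnity.exists_primitiveRoot Om l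
  refine ⟨hζ.toRootsOfUnity, ?_⟩
  exact hζ

theorem GFR_sm {q : ℕ} [Fact q.Prime] {V : Type} [AddCommGroup V] [Module ℚ_[q] V] (T : AddSubgroup V)
    {t : V} (ht : t ∈ T) (c : ℕ) : (q : ℚ_[q]) ^ c • t ∈ T := by
  rw [← Nat.cast_pow, Nat.cast_smul_eq_nsmul]
  exact T.nsmul_mem ht _

theorem GFR_mono {q : ℕ} [Fact q.Prime] {V : Type} [AddCommGroup V] [Module ℚ_[q] V] (T : AddSubgroup V)
    (g : Module.End ℚ_[q] V) {N K : ℕ} (hNK : N ≤ K)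
    (h : ∀ t ∈ T, ∃ t' ∈ T, g t - t = (q : ℚ_[q]) ^ K • t') :
    ∀ t ∈ T, ∃ t' ∈ T, g t - t = (q : ℚ_[q]) ^ N • t' := by
  intro t ht
  obtain ⟨t', ht', h1⟩ := h t ht
  refine ⟨(q : ℚ_[q]) ^ (K - N) • t', GFR_sm T ht' _, ?_⟩
  rw [h1, smul_smul, ← pow_add, Nat.add_sub_cancel' hNK]

theorem GFR_root {l : ℕ} (s : rootsOfUnity l Om) : (((s : Omˣ) : Om)) ^ l = 1 := by
  have h := (mem_rootsOfUnity l (s : Omˣ)).1 s.2
  rw [← Units.val_pow_eq_pow_val, h, Units.val_one]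

theorem GFR_curve (hLP : LP_stmt) (hVF : VF_stmt) (hNBK : NBK_stmt) (hDD : GJ.DD_stmt)
    (l n q : ℕ) [Fact l.Prime] [Fact q.Prime] (hl2 : l ≠ 2) (hn : 0 < n)
    (μ : Fin (n + 1) → ℕ) (a : Fin (n + 1) → Om) [Good Om l μ a]
    (S0 : Finset Om) (ha : ∀ j, a j ∈ S0) (hz : ∀ x : Om, x ^ l = 1 → x ∈ S0)
    (s : rootsOfUnity l Om) (hs : Prim s) (B : ℕ → Subgroup (Fl q l)ˣ)
    (hB : ∀ (V : Type) [AddCommGroup V] [Module ℚ_[q] V] (T : AddSubgroup V) (Z : Module.End ℚ_[q] V) (n : ℕ), Lat q T →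
      (∀ t ∈ T, Z t ∈ T) → IsFreeZ l n Z → ∑ i ∈ Finset.range l, Z ^ i = 0 → ∀ k, ∃ N : ℕ, ∀ (g : Module.End ℚ_[q] V) (x : (Fl q l)ˣ),
      g * Z = Z * g → (∀ t ∈ T, ∃ t' ∈ T, g t - t = (q : ℚ_[q]) ^ N • t') → IsDet l Z g (x : Fl q l) → x ∈ B k) :
    ∃ δ : Fx S0 →* (Fl q l)ˣ,
      (∀ (g : Fx S0) (hg : ∀ j, (g : Om ≃+* Om) (a j) = a j),
        IsDet l (zK q s : Module.End ℚ_[q] (VT q (JC Om l μ a))) (VT.map q (actA (g : Om ≃+* Om) hg 1)) (δ g : Fl q l)) ∧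
      (∀ (g : Fx S0) (hg : ∀ j, (g : Om ≃+* Om) (a j) = a j) (x : Fl q l),
        IsDet l (zK q s : Module.End ℚ_[q] (VT q (JC Om l μ a))) (VT.map q (actA (g : Om ≃+* Om) hg 1)) x → x = δ g) ∧
      ∀ k, ∃ N : ℕ, ∀ (g : Fx S0) (hg : ∀ j, (g : Om ≃+* Om) (a j) = a j) (K : ℕ), N ≤ K →
        (∀ f : VT q (JC Om l μ a), (∀ z : ℤ_[q], f.val (z : ℚ_[q]) = 0) →
          ∃ f' : VT q (JC Om l μ a), (∀ z : ℤ_[q], f'.val (z : ℚ_[q]) = 0) ∧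
            VT.map q (actA (g : Om ≃+* Om) hg (1 : rootsOfUnity l Om)) f - f = (q : ℚ_[q]) ^ K • f') → δ g ∈ B k := by
  classical
  have hl0 : NeZero (l : Om) := ⟨by exact_mod_cast (Fact.out (p := l.Prime)).ne_zero⟩
  have hded : IsDedekindDomain (CR Om l μ a) := hDD Om l n μ a
  obtain ⟨ι⟩ := GFR_iota
  have hcount : Countable Om := GFR_count
  obtain ⟨v, b, hb⟩ := hVF Om ι l n q hl2 hn μ a s hs
  have hfin : FiniteDimensional ℚ_[q] (VT q (JC Om l μ a)) := Module.Finite.of_basis b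
  have hfree : IsFreeZ l n (zK q s : Module.End ℚ_[q] (VT q (JC Om l μ a))) := ⟨v, b, hb⟩
  obtain ⟨hmul, hone, hcomm, hsum, hlat, hst⟩ := hNBK Om l n q μ a
  obtain ⟨T, hT, hTm⟩ := hlat hfin
  obtain ⟨hex, huni, hml, h11, -⟩ := hLP q l _ (zK q s : Module.End ℚ_[q] (VT q (JC Om l μ a))) n hfree (hsum s hs)
  have hfix : ∀ g : Fx S0, ∀ j, (g : Om ≃+* Om) (a j) = a j := fun g j => g.2 _ (ha j)
  have hfs : ∀ g : Fx S0, (g : Om ≃+* Om) ((s : Omˣ) : Om) = ((s : Omˣ) : Om) := fun g =>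
    g.2 _ (hz _ (GFR_root s))
  have hcm : ∀ (g : Fx S0) (hg : ∀ j, (g : Om ≃+* Om) (a j) = a j),
      (VT.map q (actA (g : Om ≃+* Om) hg (1 : rootsOfUnity l Om)) : Module.End ℚ_[q] (VT q (JC Om l μ a))) *
        zK q s = zK q s * VT.map q (actA (g : Om ≃+* Om) hg 1) := fun g hg => hcomm _ hg s (hfs g)
  choose x hx using fun g : Fx S0 => hex _ (hcm g (hfix g))
  have hx1 : x 1 = 1 := by
    refine huni _ _ _ (hcm 1 (hfix 1)) (hx 1) ?_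
    have h1 := hone (hfix 1)
    have h2 : (VT.map q (actA ((1 : Fx S0) : Om ≃+* Om) (hfix 1) (1 : rootsOfUnity l Om)) :
        Module.End ℚ_[q] (VT q (JC Om l μ a))) = 1 := h1
    rw [h2]
    exact h11
  have hxm : ∀ g g' : Fx S0, x (g * g') = x g * x g' := by
    intro g g'
    refine huni _ _ _ (hcm (g * g') (hfix _)) (hx (g * g')) ?_
    have h1 := hmul (g : Om ≃+* Om) (g' : Om ≃+* Om) (hfix g) (hfix g') (hfix (g * g'))
    have h2 : (VT.map q (actA ((g * g' : Fx S0) : Om ≃+* Om) (hfix (g * g')) (1 : rootsOfUnity l Om)) :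
        Module.End ℚ_[q] (VT q (JC Om l μ a))) =
        VT.map q (actA (g : Om ≃+* Om) (hfix g) 1) * VT.map q (actA (g' : Om ≃+* Om) (hfix g') 1) := h1
    rw [h2]
    exact hml _ _ _ _ (hcm g (hfix g)) (hcm g' (hfix g')) (hx g) (hx g')
  let f : Fx S0 →* Fl q l :=
    { toFun := x
      map_one' := hx1
      map_mul' := hxm }
  have hf : ∀ g, ((f.toHomUnits g : (Fl q l)ˣ) : Fl q l) = x g := fun g => rfl
  refine ⟨f.toHomUnits, ?_, ?_, ?_⟩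
  · intro g hg
    rw [hf]
    exact hx g
  · intro g hg y hy
    rw [hf]
    exact huni _ _ _ (hcm g hg) hy (hx g)
  · intro k
    obtain ⟨N, hN⟩ := hB _ T (zK q s : Module.End ℚ_[q] (VT q (JC Om l μ a))) n hT
      (fun t ht => (hTm _).2 (hst 1 (fun _ => rfl) s t ((hTm t).1 ht)).2) hfree (hsum s hs) k
    refine ⟨N, ?_⟩
    intro g hg K hK h1
    refine hN (VT.map q (actA (g : Om ≃+* Om) hg (1 : rootsOfUnity l Om)) : Module.End ℚ_[q] (VT q (JC Om l μ a)))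
      (f.toHomUnits g) (hcm g hg) ?_ ?_
    · refine GFR_mono T _ hK ?_
      intro t ht
      obtain ⟨f', hf', h2⟩ := h1 t ((hTm t).1 ht)
      exact ⟨f', (hTm f').2 hf', h2⟩
    · rw [hf]
      exact hx g

/-- the datum with the single curve -/
@[reducible] def GFR_D {l n : ℕ} [Fact l.Prime] (μ : Fin (n + 1) → ℕ) (a : Fin (n + 1) → Om) (good : Good Om l μ a) :
    Dat l where
  k := 1
  n := fun _ => n
  μ := fun _ => μ
  a := fun _ => a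
  good := fun _ => good
  e := fun _ => 1
  r := 0
  m := fun i => i.elim0
  pos := fun i => i.elim0

theorem GFR_frob (hGDC : GDC_stmt) (hGPL : GPL_stmt) (hQPL : QPL_stmt) (hQB2 : QB2_stmt) (hQCF : QCF_stmt)
    (hE4 : FJ.E4_stmt) (hDD : GJ.DD_stmt)
    (l n q : ℕ) [Fact l.Prime] [Fact q.Prime] (hl2 : l ≠ 2) (hn : 0 < n)
    (μ : Fin (n + 1) → ℕ) (a : Fin (n + 1) → Om) [hgood : Good Om l μ a]
    (hfin : FiniteDimensional ℚ_[q] (VT q (JC Om l μ a))) :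
    ∃ D0 : ℕ, 0 < D0 ∧ ∀ (p : ℕ) [Fact p.Prime] (O : ValuationSubring Om) [CharP (rf O) p] (F : Om ≃+* Om),
      IsFrobO O F p → ((D0 : ℕ) : rf O) ≠ 0 →
      ∀ (hF : ∀ j, F (a j) = a j), (∀ x : Om, x ^ l = 1 → F x = x) →
      Cyc (μ := μ) (a := a) q (VT.map q (actA F hF (1 : rootsOfUnity l Om))) →
      ∀ s : rootsOfUnity l Om, Prim s → ∃ x : Fl q l,
        IsDet l (zK q s : Module.End ℚ_[q] (VT q (JC Om l μ a))) (VT.map q (actA F hF 1)) x ∧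
        ∀ y : ℕ → ℕ → Fl q l, (∀ b k, 0 < b → b < l → 0 < k → k + 1 < l → IsKap l q s F b k (y b k)) →
          x ^ l * ∏ k ∈ Finset.Ico 1 (l - 1), y ((∑ j, μ j) % l) k =
            (fl (C (chiO q F)) : Fl q l) ^ n * ∏ j, ∏ k ∈ Finset.Ico 1 (l - 1), y (μ j) k := by
  classical
  have hl : l.Prime := Fact.out
  have hl3 : 2 < l := lt_of_le_of_ne hl.two_le (Ne.symm hl2)
  have hl0 : NeZero (l : Om) := ⟨by exact_mod_cast hl.ne_zero⟩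
  have hded : IsDedekindDomain (CR Om l μ a) := hDD Om l n μ a
  obtain ⟨D1, hD1, h1⟩ := hQB2 l n q μ a hfin
  obtain ⟨D2, hD2, h2⟩ := hGPL l n q hl2 μ a
  obtain ⟨D3, hD3, h3⟩ := hQPL l (GFR_D μ a hgood) hl3
  have hq : q.Prime := Fact.out
  refine ⟨q * (D1 * (D2 * D3)), Nat.mul_pos hq.pos (Nat.mul_pos hD1 (Nat.mul_pos hD2 hD3)), ?_⟩
  intro p _ O _ F hFr hD0 hF hFz hcyc s hs
  rw [Nat.cast_mul, Nat.cast_mul, Nat.cast_mul] at hD0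
  have hq0 := left_ne_zero_of_mul hD0
  have hD0' := right_ne_zero_of_mul hD0
  have hD10 := left_ne_zero_of_mul hD0'
  have hD0'' := right_ne_zero_of_mul hD0'
  have hD20 := left_ne_zero_of_mul hD0''
  have hD30 := right_ne_zero_of_mul hD0''
  have hFr' : IsFrobO O F (p ^ 1) := by rw [pow_one]; exact hFr
  obtain ⟨K, iF, iT, iD, α, e, χ, A, hcq, hP⟩ := h3 p 1 O F one_pos hFr' (fun _ j => hF j) hFz hD30
  have hP0 := hP 0
  have hP1 : IsPlQ (l := l) a α O e χ F (A 0) := hP0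
  have hχ : χ ^ l = 1 := by
    have h4 := pow_orderOf_eq_one χ
    rw [hP1.ord] at h4
    exact h4
  obtain ⟨P, hPz, hPev, hPop⟩ := hQCF l n μ K χ (A 0) s hs hχ
  have hPol : IsPol μ a q χ (A 0) s P := ⟨hPz, hPev, fun d => hPop q a d⟩
  have hrel := h1 p 1 α K O e χ F (A 0) hP1 hcq hD10
  have hdet := hGDC l n q hl2 hn μ a K χ (A 0) F hF hFz s hs P hPol hrel hcyc
  refine ⟨_, hdet, ?_⟩
  intro y hy
  have h5 := h2 p 1 α K O e χ F (A 0) hP1 hcq hD20 s hs P hPol y hy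
  rw [h5, hcq, pow_one, hE4 O F p q hFr hq0]
  simp

theorem GFR_cong {q : ℕ} [Fact q.Prime] {V : Type} [AddCommGroup V] [Module ℚ_[q] V] (T : AddSubgroup V)
    (ν H G : Module.End ℚ_[q] V) (K : ℕ) (hH : ∀ t ∈ T, H t ∈ T) (hν : ∀ t ∈ T, ν t ∈ T)
    (h1 : ∀ t ∈ T, ∃ t' ∈ T, ν t - t = (q : ℚ_[q]) ^ K • t')
    (h2 : ∀ t ∈ T, ∃ t' ∈ T, G t - t = (q : ℚ_[q]) ^ K • t') :
    ∀ t ∈ T, ∃ t' ∈ T, (ν * H * G) t = H t + (q : ℚ_[q]) ^ K • t' := by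
  intro t ht
  obtain ⟨t1, ht1, e1⟩ := h2 t ht
  have e2 : G t = t + (q : ℚ_[q]) ^ K • t1 := by rw [← e1]; abel
  obtain ⟨t2, ht2, e3⟩ := h1 (H t) (hH t ht)
  have e4 : ν (H t) = H t + (q : ℚ_[q]) ^ K • t2 := by rw [← e3]; abel
  refine ⟨t2 + ν (H t1), T.add_mem ht2 (hν _ (hH _ ht1)), ?_⟩
  rw [Module.End.mul_apply, Module.End.mul_apply, e2, map_add, map_add, map_smul, map_smul, e4, smul_add, add_assoc]

theorem GFR_cyc (hNC3 : NC3_stmt) (hVF : VF_stmt) (hNBK : NBK_stmt) (hDD : GJ.DD_stmt)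
    (l n q : ℕ) [Fact l.Prime] [Fact q.Prime] (hl2 : l ≠ 2) (hn : 0 < n)
    (μ : Fin (n + 1) → ℕ) (a : Fin (n + 1) → Om) [Good Om l μ a]
    (h : Om ≃+* Om) (hh : ∀ j, h (a j) = a j)
    (hcyc : Cyc (μ := μ) (a := a) q (VT.map q (actA h hh (1 : rootsOfUnity l Om)))) :
    ∃ K0 : ℕ, ∀ (F ν g : Om ≃+* Om) (v K : ℕ) (hF : ∀ j, F (a j) = a j) (hν : ∀ j, ν (a j) = a j)
      (hg : ∀ j, g (a j) = a j), F ^ v = ν * h * g → K0 ≤ K →
      (∀ f : VT q (JC Om l μ a), (∀ z : ℤ_[q], f.val (z : ℚ_[q]) = 0) →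
        ∃ f' : VT q (JC Om l μ a), (∀ z : ℤ_[q], f'.val (z : ℚ_[q]) = 0) ∧
          VT.map q (actA ν hν (1 : rootsOfUnity l Om)) f - f = (q : ℚ_[q]) ^ K • f') →
      (∀ f : VT q (JC Om l μ a), (∀ z : ℤ_[q], f.val (z : ℚ_[q]) = 0) →
        ∃ f' : VT q (JC Om l μ a), (∀ z : ℤ_[q], f'.val (z : ℚ_[q]) = 0) ∧
          VT.map q (actA g hg (1 : rootsOfUnity l Om)) f - f = (q : ℚ_[q]) ^ K0 • f') →
      Cyc (μ := μ) (a := a) q (VT.map q (actA F hF (1 : rootsOfUnity l Om))) := by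
  classical
  have hl0 : NeZero (l : Om) := ⟨by exact_mod_cast (Fact.out (p := l.Prime)).ne_zero⟩
  have hded : IsDedekindDomain (CR Om l μ a) := hDD Om l n μ a
  obtain ⟨ι⟩ := GFR_iota
  have hcount : Countable Om := GFR_count
  obtain ⟨s, hs⟩ := GFR_prim l
  obtain ⟨v, b, hb⟩ := hVF Om ι l n q hl2 hn μ a s hs
  have hfin : FiniteDimensional ℚ_[q] (VT q (JC Om l μ a)) := Module.Finite.of_basis b
  obtain ⟨hmul, hone, hcomm, hsum, hlat, hst⟩ := hNBK Om l n q μ a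
  obtain ⟨T, hT, hTm⟩ := hlat hfin
  obtain ⟨t, ht⟩ := hcyc
  have hact : ∀ (σ : Om ≃+* Om) (hσ : ∀ j, σ (a j) = a j), ∀ w ∈ T,
      (VT.map q (actA σ hσ (1 : rootsOfUnity l Om)) : Module.End ℚ_[q] (VT q (JC Om l μ a))) w ∈ T := by
    intro σ hσ w hw
    exact (hTm _).2 (hst σ hσ 1 w ((hTm w).1 hw)).1
  have hz : ∀ (s : rootsOfUnity l Om), ∀ w ∈ T, zK q s w ∈ T := by
    intro s w hw
    exact (hTm _).2 (hst 1 (fun _ => rfl) s w ((hTm w).1 hw)).2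
  obtain ⟨K0, hK0⟩ := hNC3 q _ (rootsOfUnity l Om) T hT (fun s => zK q s)
    (VT.map q (actA h hh (1 : rootsOfUnity l Om))) t hz (hact h hh) ht
  refine ⟨K0, ?_⟩
  intro F ν g v K hF hν hg hFv hK h1 h2
  refine ⟨t, hK0 _ v (hact F hF) ?_⟩
  have hFp : ∀ m : ℕ, ∀ j, (F ^ m) (a j) = a j := by
    intro m
    induction m with
    | zero => intro j; rfl
    | succ m ih =>
      intro j
      rw [pow_succ']
      show F ((F ^ m) (a j)) = a j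
      rw [ih j, hF j]
  have hpow : ∀ m : ℕ, (VT.map q (actA F hF (1 : rootsOfUnity l Om)) : Module.End ℚ_[q] (VT q (JC Om l μ a))) ^ m =
      VT.map q (actA (F ^ m) (hFp m) 1) := by
    intro m
    induction m with
    | zero =>
      have h3 := hone (hFp 0)
      rw [pow_zero]
      exact h3.symm
    | succ m ih =>
      rw [pow_succ, ih]
      exact (hmul (F ^ m) F (hFp m) hF (hFp (m + 1))).symm
  have hνh : ∀ j, (ν * h) (a j) = a j := by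
    intro j
    show ν (h (a j)) = a j
    rw [hh, hν]
  have hνhg : ∀ j, (ν * h * g) (a j) = a j := by
    intro j
    show (ν * h) (g (a j)) = a j
    rw [hg, hνh]
  have h3 : (VT.map q (actA F hF (1 : rootsOfUnity l Om)) : Module.End ℚ_[q] (VT q (JC Om l μ a))) ^ v =
      VT.map q (actA ν hν (1 : rootsOfUnity l Om)) * VT.map q (actA h hh (1 : rootsOfUnity l Om)) *
        VT.map q (actA g hg (1 : rootsOfUnity l Om)) := by
    rw [hpow v, ← hmul ν h hν hh hνh, ← hmul (ν * h) g hνh hg hνhg]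
    have h4 : ∀ (x y : Om ≃+* Om) (hx : ∀ j, x (a j) = a j) (hy : ∀ j, y (a j) = a j), x = y →
        (VT.map q (actA x hx (1 : rootsOfUnity l Om)) : Module.End ℚ_[q] (VT q (JC Om l μ a))) =
          VT.map q (actA y hy 1) := by
      intro x y hx hy hxy
      subst hxy
      rfl
    exact h4 _ _ _ _ hFv
  intro w hw
  rw [h3]
  refine GFR_cong T _ _ _ K0 (hact h hh) (hact ν hν) (GFR_mono T _ hK ?_) ?_ w hw
  · intro t ht
    obtain ⟨f', hf', h5⟩ := h1 t ((hTm t).1 ht)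
    exact ⟨f', (hTm f').2 hf', h5⟩
  · intro t ht
    obtain ⟨f', hf', h5⟩ := h2 t ((hTm t).1 ht)
    exact ⟨f', (hTm f').2 hf', h5⟩

theorem GFR_norm (q : ℕ) [Fact q.Prime] {N K : ℕ} (h : N ≤ K) : ‖(q : ℚ_[q]) ^ K‖ ≤ ‖(q : ℚ_[q]) ^ N‖ := by
  rw [norm_pow, norm_pow]
  exact pow_le_pow_of_le_one (norm_nonneg _) Padic.norm_p_lt_one.le h

theorem GFR_chi (q l : ℕ) [Fact q.Prime] (S0 : Finset Om) :
    ∃ χh : Fx S0 →* (Fl q l)ˣ, ∀ g : Fx S0, (χh g : Fl q l) = fl (C (chiO q (g : Om ≃+* Om))) := by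
  let c0 : Fx S0 →* ℚ_[q]ˣ := (Units.map ((PadicInt.Coe.ringHom : ℤ_[q] →+* ℚ_[q]) : ℤ_[q] →* ℚ_[q])).comp
    ((cyclotomicCharacter Om q).comp (Fx S0).subtype)
  let c1 : ℚ_[q] →+* Fl q l := (AdjoinRoot.mk (cyclotomic l ℚ_[q])).comp C
  refine ⟨(Units.map (c1 : ℚ_[q] →* Fl q l)).comp c0, ?_⟩
  intro g
  rfl

theorem GFR_kap (hLP : LP_stmt) (hVF : VF_stmt) (hNBK : NBK_stmt) (hDD : GJ.DD_stmt)
    (l q : ℕ) [Fact l.Prime] [Fact q.Prime] (hl2 : l ≠ 2)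
    (S0 : Finset Om) (ha : ∀ j, aJ j ∈ S0) (hz : ∀ x : Om, x ^ l = 1 → x ∈ S0)
    (s : rootsOfUnity l Om) (hs : Prim s) (B : ℕ → Subgroup (Fl q l)ˣ)
    (hB : ∀ (V : Type) [AddCommGroup V] [Module ℚ_[q] V] (T : AddSubgroup V) (Z : Module.End ℚ_[q] V) (n : ℕ), Lat q T →
      (∀ t ∈ T, Z t ∈ T) → IsFreeZ l n Z → ∑ i ∈ Finset.range l, Z ^ i = 0 → ∀ k, ∃ N : ℕ, ∀ (g : Module.End ℚ_[q] V) (x : (Fl q l)ˣ),
      g * Z = Z * g → (∀ t ∈ T, ∃ t' ∈ T, g t - t = (q : ℚ_[q]) ^ N • t') → IsDet l Z g (x : Fl q l) → x ∈ B k)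
    (b k : ℕ) :
    ∃ κ : Fx S0 →* (Fl q l)ˣ,
      (0 < b → b < l → 0 < k → k + 1 < l → ∀ g : Fx S0, IsKap l q s (g : Om ≃+* Om) b k (κ g : Fl q l)) ∧
      (0 < b → b < l → 0 < k → k + 1 < l → ∀ (g : Fx S0) (x : Fl q l), IsKap l q s (g : Om ≃+* Om) b k x → x = κ g) ∧
      ∀ kk, ∃ N : ℕ, ∀ (g : Fx S0) (K : ℕ), N ≤ K →
        (0 < b → b < l → 0 < k → k + 1 < l → ∀ (_ : Good Om l (muJ l b k) aJ) (f : VT q (JC Om l (muJ l b k) aJ)),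
          (∀ z : ℤ_[q], f.val (z : ℚ_[q]) = 0) →
          ∃ f' : VT q (JC Om l (muJ l b k) aJ), (∀ z : ℤ_[q], f'.val (z : ℚ_[q]) = 0) ∧
            VT.map q (actA (g : Om ≃+* Om) (fixJ (g : Om ≃+* Om)) (1 : rootsOfUnity l Om)) f - f =
              (q : ℚ_[q]) ^ K • f') → κ g ∈ B kk := by
  classical
  by_cases hr : 0 < b ∧ b < l ∧ 0 < k ∧ k + 1 < l
  · obtain ⟨h1, h2, h3, h4⟩ := hr
    have hgood : Good Om l (muJ l b k) aJ := goodJ h1 h2 h3 h4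
    obtain ⟨κ, hκ1, hκ2, hκ3⟩ := GFR_curve hLP hVF hNBK hDD l 1 q hl2 one_pos (muJ l b k) aJ S0 ha hz s hs B hB
    refine ⟨κ, ?_, ?_, ?_⟩
    · intro _ _ _ _ g _
      exact hκ1 g (fixJ (g : Om ≃+* Om))
    · intro _ _ _ _ g x hx
      exact hκ2 g (fixJ (g : Om ≃+* Om)) x (hx hgood)
    · intro kk
      obtain ⟨N, hN⟩ := hκ3 kk
      refine ⟨N, ?_⟩
      intro g K hK h5
      exact hN g (fixJ (g : Om ≃+* Om)) K hK (h5 h1 h2 h3 h4 hgood)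
  · refine ⟨1, ?_, ?_, ?_⟩
    · intro h1 h2 h3 h4
      exact absurd ⟨h1, h2, h3, h4⟩ hr
    · intro h1 h2 h3 h4
      exact absurd ⟨h1, h2, h3, h4⟩ hr
    · intro kk
      exact ⟨0, fun g K _ _ => (B kk).one_mem⟩

theorem GFR (hFDN : FDN_stmt) (hGC : GC_stmt) (hGNK : GNK_stmt) (hGDC : GDC_stmt) (hGPL : GPL_stmt) (hQPL : QPL_stmt) (hQB2 : QB2_stmt) (hQCF : QCF_stmt) (hNC3 : NC3_stmt) (hT7 : GJ.T7_stmt) (hLP : LP_stmt) (hVF : VF_stmt) (hNBK : NBK_stmt) (hE4 : FJ.E4_stmt) (hDD : GJ.DD_stmt) : GFR_stmt := by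
  classical
  intro l n q _ _ hl2 hn μ a hgood h hh hhz hcyc
  have hl : l.Prime := Fact.out
  have hq : q.Prime := Fact.out
  have hl0 : NeZero (l : Om) := ⟨by exact_mod_cast hl.ne_zero⟩
  have hded : IsDedekindDomain (CR Om l μ a) := hDD Om l n μ a
  have hfin : FiniteDimensional ℚ_[q] (VT q (JC Om l μ a)) := by
    obtain ⟨ι⟩ := GFR_iota
    have hcount : Countable Om := GFR_count
    obtain ⟨s, hs⟩ := GFR_prim l
    obtain ⟨v, b, hb⟩ := hVF Om ι l n q hl2 hn μ a s hs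
    exact Module.Finite.of_basis b
  obtain ⟨S0, ha, haJ, hz, hS0⟩ : ∃ S0 : Finset Om, (∀ j, a j ∈ S0) ∧ (∀ j, aJ j ∈ S0) ∧
      (∀ x : Om, x ^ l = 1 → x ∈ S0) ∧
      ∀ g : Om ≃+* Om, (∀ j, g (a j) = a j) → (∀ x : Om, x ^ l = 1 → g x = x) → g ∈ Fx S0 := by
    refine ⟨Finset.univ.image a ∪ (Finset.univ.image aJ ∪ (Polynomial.nthRoots l (1 : Om)).toFinset), ?_, ?_, ?_, ?_⟩
    · intro j
      exact Finset.mem_union_left _ (Finset.mem_image_of_mem _ (Finset.mem_univ j))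
    · intro j
      exact Finset.mem_union_right _ (Finset.mem_union_left _ (Finset.mem_image_of_mem _ (Finset.mem_univ j)))
    · intro x hx
      refine Finset.mem_union_right _ (Finset.mem_union_right _ ?_)
      rw [Multiset.mem_toFinset, Polynomial.mem_nthRoots hl.pos]
      exact hx
    · intro g hg hgz x hx
      rcases Finset.mem_union.1 hx with hx | hx
      · obtain ⟨j, _, rfl⟩ := Finset.mem_image.1 hx
        exact hg j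
      · rcases Finset.mem_union.1 hx with hx | hx
        · obtain ⟨j, _, rfl⟩ := Finset.mem_image.1 hx
          exact fixJ g j
        · rw [Multiset.mem_toFinset, Polynomial.mem_nthRoots hl.pos] at hx
          exact hgz x hx
  obtain ⟨K0, hK0⟩ := GFR_cyc hNC3 hVF hNBK hDD l n q hl2 hn μ a h hh hcyc
  obtain ⟨N0, S1, hN0le, hN0nrm, hS1, hN0⟩ := hGNK l n q hl2 hn μ a S0 ha hz K0
  obtain ⟨m, hm, hT⟩ := hT7 S1
  obtain ⟨D0, hD0, hfrob⟩ := GFR_frob hGDC hGPL hQPL hQB2 hQCF hE4 hDD l n q hl2 hn μ a hfin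
  obtain ⟨B, hB1, hB2, hB3⟩ := hGC q l
  refine ⟨m, hm, ?_⟩
  intro g hg hgz s hs x y hx hy
  have hB3' : ∀ (V : Type) [AddCommGroup V] [Module ℚ_[q] V] (T : AddSubgroup V) (Z : Module.End ℚ_[q] V) (n : ℕ), Lat q T →
      (∀ t ∈ T, Z t ∈ T) → IsFreeZ l n Z → ∑ i ∈ Finset.range l, Z ^ i = 0 → ∀ k, ∃ N : ℕ, ∀ (g : Module.End ℚ_[q] V) (x : (Fl q l)ˣ),
      g * Z = Z * g → (∀ t ∈ T, ∃ t' ∈ T, g t - t = (q : ℚ_[q]) ^ N • t') → IsDet l Z g (x : Fl q l) → x ∈ B k := by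
    intro V _ _
    exact hB3 V
  obtain ⟨δ, hδ1, hδ2, hδ3⟩ := GFR_curve hLP hVF hNBK hDD l n q hl2 hn μ a S0 ha hz s hs B hB3'
  choose κ hκ1 hκ2 hκ3 using GFR_kap hLP hVF hNBK hDD l q hl2 S0 haJ hz s hs B hB3'
  obtain ⟨χh, hχh⟩ := GFR_chi q l S0
  have hSl : 0 < (∑ j, μ j) % l := Nat.pos_of_ne_zero fun h0 => hgood.inf (Nat.dvd_of_mod_eq_zero h0)
  have hSl' : (∑ j, μ j) % l < l := Nat.mod_lt _ hl.pos
  have hrange : ∀ k ∈ Finset.Ico 1 (l - 1), 0 < k ∧ k + 1 < l := by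
    intro k hk
    rw [Finset.mem_Ico] at hk
    omega
  have hfixa : ∀ g : Fx S0, ∀ j, (g : Om ≃+* Om) (a j) = a j := fun g j => g.2 _ (ha j)
  have hfixz : ∀ g : Fx S0, ∀ x : Om, x ^ l = 1 → (g : Om ≃+* Om) x = x := fun g x hx => g.2 _ (hz x hx)
  let ψ : Fx S0 →* (Fl q l)ˣ := δ ^ l * (∏ k ∈ Finset.Ico 1 (l - 1), κ ((∑ j, μ j) % l) k) *
    (χh ^ n * ∏ j, ∏ k ∈ Finset.Ico 1 (l - 1), κ (μ j) k)⁻¹
  have hψ : ∀ g : Fx S0, ψ g = δ g ^ l * (∏ k ∈ Finset.Ico 1 (l - 1), κ ((∑ j, μ j) % l) k g) *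
      (χh g ^ n * ∏ j, ∏ k ∈ Finset.Ico 1 (l - 1), κ (μ j) k g)⁻¹ := by
    intro g
    simp only [ψ, MonoidHom.mul_apply, MonoidHom.inv_apply, MonoidHom.pow_apply, MonoidHom.finsetProd_apply]
  have hψm : ∀ (g : Fx S0) (w : ℕ), ψ g ^ w = 1 ↔
      ((δ g : Fl q l) ^ l * ∏ k ∈ Finset.Ico 1 (l - 1), (κ ((∑ j, μ j) % l) k g : Fl q l)) ^ w =
      ((χh g : Fl q l) ^ n * ∏ j, ∏ k ∈ Finset.Ico 1 (l - 1), (κ (μ j) k g : Fl q l)) ^ w := by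
    intro g w
    rw [hψ, mul_pow, inv_pow, mul_inv_eq_one, Units.ext_iff]
    simp only [Units.val_pow_eq_pow_val, Units.val_mul, Units.coe_prod]
  have claim : ∀ g : Fx S0, ψ (⟨h, hS0 h hh hhz⟩ * g ^ m) = 1 := by
    intro g
    refine hB1 _ ?_
    intro kk
    obtain ⟨NV, hNV⟩ := hδ3 kk
    choose NJ hNJ using fun b k => hκ3 b k kk
    obtain ⟨Nχ, hNχ⟩ := hB2 kk
    obtain ⟨K, hK1, hK2, hK3, hK4⟩ : ∃ K : ℕ, K0 ≤ K ∧ NV ≤ K ∧ Nχ ≤ K ∧ ∀ b k, b < l → k < l → NJ b k ≤ K := by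
      refine ⟨K0 + NV + Nχ + ∑ b ∈ Finset.range l, ∑ k ∈ Finset.range l, NJ b k, by omega, by omega, by omega, ?_⟩
      intro b k hb hk
      have h1 : NJ b k ≤ ∑ k ∈ Finset.range l, NJ b k :=
        Finset.single_le_sum (f := fun k => NJ b k) (fun _ _ => Nat.zero_le _) (Finset.mem_range.2 hk)
      have h2 : ∑ k ∈ Finset.range l, NJ b k ≤ ∑ b ∈ Finset.range l, ∑ k ∈ Finset.range l, NJ b k :=
        Finset.single_le_sum (f := fun b => ∑ k ∈ Finset.range l, NJ b k) (fun _ _ => Nat.zero_le _) (Finset.mem_range.2 hb)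
      omega
    obtain ⟨NK, S1K, hNKle, hNKnrm, hS1K, hNK⟩ := hGNK l n q hl2 hn μ a S0 ha hz K
    have hνB : ∀ ν : Fx S0, (ν : Om ≃+* Om) ∈ NK → ψ ν ∈ B kk := by
      intro ν hν
      obtain ⟨e1, e2, e3⟩ := hNK _ hν
      have hκB : ∀ b k, b < l → k < l → κ b k ν ∈ B kk := by
        intro b k hb hk
        refine hNJ b k ν K (hK4 b k hb hk) ?_
        intro g1 g2 g3 g4
        exact e3 b k g1 g2 g3 g4
      have hχB : χh ν ∈ B kk := by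
        refine hNχ (chiO q (ν : Om ≃+* Om)) (χh ν) (e1.trans (GFR_norm q hK3)) (hχh ν)
      have hδB : δ ν ∈ B kk := hNV ν (hfixa ν) K hK2 (e2 (hfixa ν))
      rw [hψ]
      refine mul_mem (mul_mem (pow_mem hδB _) (prod_mem ?_)) (inv_mem (mul_mem (pow_mem hχB _) (prod_mem ?_)))
      · intro k hk
        have := hrange k hk
        exact hκB _ _ hSl' (by omega)
      · intro j _
        refine prod_mem ?_
        intro k hk
        have := hrange k hk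
        exact hκB _ _ (hgood.lt j) (by omega)
    have hσ0 : ((⟨h, hS0 h hh hhz⟩ * g ^ m : Fx S0) : Om ≃+* Om) ∈ Fx S0 := (⟨h, hS0 h hh hhz⟩ * g ^ m : Fx S0).2
    obtain ⟨p, hp, O, hch, F, v, hF, hFr, hD, hv, hFv⟩ := hFDN S0 S1K NK hNKle hNKnrm hS1K _ hσ0 D0 hD0
    have hFv0 := hNKle hFv
    have hFa : ∀ j, F (a j) = a j := fun j => hF _ (ha j)
    have hFz : ∀ x : Om, x ^ l = 1 → F x = x := fun x hx => hF _ (hz x hx)
    have hFpow : F ^ v = (F ^ v * ((⟨h, hS0 h hh hhz⟩ * g ^ m : Fx S0) : Om ≃+* Om)⁻¹) * h * ((g : Om ≃+* Om) ^ m) := by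
      have e1 : ((⟨h, hS0 h hh hhz⟩ * g ^ m : Fx S0) : Om ≃+* Om) = h * (g : Om ≃+* Om) ^ m := rfl
      rw [e1]
      group
    have hgm : ((g : Om ≃+* Om) ^ m) ∈ N0 := by
      refine hS1 ?_
      intro x hx
      exact hT (g : Om ≃+* Om) x hx
    have hgma : ∀ j, ((g : Om ≃+* Om) ^ m) (a j) = a j := fun j => hfixa (g ^ m) j
    have hνa : ∀ j, (F ^ v * ((⟨h, hS0 h hh hhz⟩ * g ^ m : Fx S0) : Om ≃+* Om)⁻¹) (a j) = a j := fun j => hFv0 _ (ha j)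
    have hcycF := hK0 F _ _ v K hFa hνa hgma hFpow hK1 ((hNK _ hFv).2.1 hνa) ((hN0 _ hgm).2.1 hgma)
    obtain ⟨x1, hx1, hy1⟩ := hfrob p O F hFr hD hFa hFz hcycF s hs
    have hδF := hδ2 ⟨F, hF⟩ hFa x1 hx1
    have hrel := hy1 (fun b k => (κ b k ⟨F, hF⟩ : Fl q l)) (fun b k h1 h2 h3 h4 => hκ1 b k h1 h2 h3 h4 ⟨F, hF⟩)
    have hψF : ψ ⟨F, hF⟩ = 1 := by
      have e1 := (hψm ⟨F, hF⟩ 1).2 (by
        rw [pow_one, pow_one, ← hδF, hχh]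
        exact hrel)
      rwa [pow_one] at e1
    have hmul : (⟨F, hF⟩ : Fx S0) ^ v = ⟨F ^ v * ((⟨h, hS0 h hh hhz⟩ * g ^ m : Fx S0) : Om ≃+* Om)⁻¹, hFv0⟩ *
        (⟨h, hS0 h hh hhz⟩ * g ^ m) := by
      apply Subtype.ext
      show F ^ v = (F ^ v * ((⟨h, hS0 h hh hhz⟩ * g ^ m : Fx S0) : Om ≃+* Om)⁻¹) * ((⟨h, hS0 h hh hhz⟩ * g ^ m : Fx S0) : Om ≃+* Om)
      rw [inv_mul_cancel_right]
    have e2 := congrArg ψ hmul
    rw [map_pow, hψF, one_pow, map_mul] at e2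
    have e3 : ψ (⟨h, hS0 h hh hhz⟩ * g ^ m) = (ψ ⟨F ^ v * ((⟨h, hS0 h hh hhz⟩ * g ^ m : Fx S0) : Om ≃+* Om)⁻¹, hFv0⟩)⁻¹ :=
      (inv_eq_of_mul_eq_one_right e2.symm).symm
    rw [e3]
    exact inv_mem (hνB _ hFv)
  have hψh : ψ ⟨h, hS0 h hh hhz⟩ = 1 := by
    have e1 := claim 1
    rwa [one_pow, mul_one] at e1
  have hgS : g ∈ Fx S0 := hS0 g hg hgz
  have hψg : ψ ⟨g, hgS⟩ ^ m = 1 := by
    have e1 := claim ⟨g, hgS⟩
    rwa [map_mul, hψh, one_mul, map_pow] at e1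
  have hfinal := (hψm ⟨g, hgS⟩ m).1 hψg
  have hxδ : x = δ ⟨g, hgS⟩ := hδ2 ⟨g, hgS⟩ hg x hx
  have hyκ : ∀ b k, 0 < b → b < l → 0 < k → k + 1 < l → y b k = κ b k ⟨g, hgS⟩ := by
    intro b k h1 h2 h3 h4
    exact hκ2 b k h1 h2 h3 h4 ⟨g, hgS⟩ _ (hy b k h1 h2 h3 h4)
  have e1 : ∏ k ∈ Finset.Ico 1 (l - 1), y ((∑ j, μ j) % l) k =
      ∏ k ∈ Finset.Ico 1 (l - 1), (κ ((∑ j, μ j) % l) k ⟨g, hgS⟩ : Fl q l) := by
    refine Finset.prod_congr rfl fun k hk => ?_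
    obtain ⟨h3, h4⟩ := hrange k hk
    exact hyκ _ _ hSl hSl' h3 h4
  have e2 : ∏ j, ∏ k ∈ Finset.Ico 1 (l - 1), y (μ j) k =
      ∏ j, ∏ k ∈ Finset.Ico 1 (l - 1), (κ (μ j) k ⟨g, hgS⟩ : Fl q l) := by
    refine Finset.prod_congr rfl fun j _ => Finset.prod_congr rfl fun k hk => ?_
    obtain ⟨h3, h4⟩ := hrange k hk
    exact hyκ _ _ (hgood.pos j) (hgood.lt j) h3 h4
  rw [e1, e2, hxδ, hfinal, hχh]

end

end Pool.Agent.TI
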